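import Pool.Agent.J4H20.TP.Stm

/-!
Project TP of helper20 (MP_176ace_nt): common part of (DEG) and (DSC).
-/

set_option autoImplicit false

namespace Pool.Agent.J4H57.TP

open Polynomial NumberField Pool.Agent.J4H20.TP

section val
variable {K : Type} [Field K] {Γ : Type*} [LinearOrderedCommGroupWithZero Γ] (V : Valuation K Γ)

lemma v_aeval_le (hV : ∀ n : ℤ, V (n : K) ≤ 1) (r : ℤ[X]) (θ : K) (N : ℕ) (hr : r.degree < (N + 1 : ℕ))
    (hθ : 1 ≤ V θ) : V (aeval θ r) ≤ V θ ^ N := by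
  have h1 : r.natDegree ≤ N := by
    by_cases h0 : r = 0
    · simp [h0]
    · have := (natDegree_lt_iff_degree_lt h0).mpr hr
      omega
  rw [aeval_eq_sum_range]
  refine Valuation.map_sum_le V fun i hi => ?_
  rw [Finset.mem_range] at hi
  rw [zsmul_eq_mul, map_mul, map_pow]
  calc V (r.coeff i : K) * V θ ^ i ≤ 1 * V θ ^ i := mul_le_mul_left (hV _) _
    _ = V θ ^ i := one_mul _
    _ ≤ V θ ^ N := pow_le_pow_right₀ hθ (by omega)

lemma v_aeval_le_one (hV : ∀ n : ℤ, V (n : K) ≤ 1) (r : ℤ[X]) (θ : K) (hθ : V θ ≤ 1) :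
    V (aeval θ r) ≤ 1 := by
  rw [aeval_eq_sum_range]
  refine Valuation.map_sum_le V fun i hi => ?_
  rw [zsmul_eq_mul, map_mul, map_pow]
  exact mul_le_one' (hV _) (pow_le_one' hθ _)

lemma v_aeval_monic (hV : ∀ n : ℤ, V (n : K) ≤ 1) (g : ℤ[X]) (hg : g.Monic) (θ : K)
    (hθ : 1 < V θ) : V (aeval θ g) = V θ ^ g.natDegree := by
  rcases Nat.eq_zero_or_pos g.natDegree with h0 | h0
  · have h1 := eq_C_of_natDegree_eq_zero h0
    have h2 : g.coeff 0 = 1 := by rw [← h0]; exact hg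
    rw [h0, h1, h2]; simp
  obtain ⟨N, hN⟩ : ∃ N, g.natDegree = N + 1 := ⟨g.natDegree - 1, by omega⟩
  have h1 : g = X ^ (N + 1) + g.eraseLead := by
    conv_lhs => rw [← g.eraseLead_add_C_mul_X_pow]
    rw [hg.leadingCoeff, hN]; simp [add_comm]
  have h2 : g.eraseLead.degree < (N + 1 : ℕ) := by
    rw [← hN]
    have := degree_eraseLead_lt hg.ne_zero
    rwa [degree_eq_natDegree hg.ne_zero] at this
  have h3 := v_aeval_le V hV g.eraseLead θ N h2 hθ.le
  have h4 : V θ ^ N < V θ ^ (N + 1) := pow_lt_pow_right₀ hθ (Nat.lt_succ_self _)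
  rw [hN]
  conv_lhs => rw [h1]
  rw [map_add, map_pow, aeval_X, Valuation.map_add_eq_of_lt_left, map_pow]
  rw [map_pow]
  exact h3.trans_lt h4

/-- `v((z + c)^p - z^p) = v(z)^(p-1)` for `v(z) > 1 = v(c) = v(p)` -/
lemma v_big (p : ℕ) (hp : 0 < p) (z c : K) (hz : 1 < V z) (hc : V c = 1) (hpv : V (p : K) = 1) :
    V ((z + c) ^ p - z ^ p) = V z ^ (p - 1) := by
  have hz0 : z ≠ 0 := by rintro rfl; simp at hz
  obtain ⟨u, hu⟩ : ∃ u : K, u = c / z := ⟨_, rfl⟩
  have hVz0 : V z ≠ 0 := (Valuation.ne_zero_iff V).mpr hz0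
  have hVu : V u = (V z)⁻¹ := by rw [hu, map_div₀, hc, one_div]
  have hVu1 : V u < 1 := by rw [hVu]; exact inv_lt_one_of_one_lt₀ hz
  obtain ⟨U, hU⟩ : ∃ U : V.integer, (U : K) = u := ⟨⟨u, hVu1.le⟩, rfl⟩
  obtain ⟨k, hk⟩ := powAddExpansion (1 : V.integer) U p
  have hk' : (1 + u) ^ p = 1 + p * u + (k : K) * u ^ 2 := by
    have := congrArg (Subtype.val : V.integer → K) hk
    push_cast at this
    rw [hU] at this
    simpa using this
  have hcz : z + c = z * (1 + u) := by rw [hu]; field_simp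
  have e1 : (z + c) ^ p - z ^ p = z ^ p * u * (p + k * u) := by
    rw [hcz, mul_pow, hk']; ring
  have h1 : V ((p : K) + k * u) = 1 := by
    rw [Valuation.map_add_eq_of_lt_left, hpv]
    rw [map_mul, hpv]
    calc V (k : K) * V u ≤ 1 * V u := mul_le_mul_left k.2 _
      _ < 1 := by rw [one_mul]; exact hVu1
  rw [e1, map_mul, map_mul, h1, mul_one, map_pow, hVu]
  obtain ⟨m, rfl⟩ : ∃ m, p = m + 1 := ⟨p - 1, by omega⟩
  rw [Nat.add_sub_cancel, pow_succ, mul_assoc, mul_inv_cancel₀ hVz0, mul_one]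

theorem core {p e k : ℕ} (D : DatP p e k) (c M : ℤ) (q : ℕ) (θ : K)
    (hV : ∀ n : ℤ, V (n : K) ≤ 1) (hq : V (q : K) < 1) (hq0 : V (q : K) ≠ 0) (hc : V (c : K) = 1)
    (hpv : V (p : K) = 1) (hM : V (M : K) = V (q : K)) (hθ : aeval θ (HP p D.g D.r c M) = 0) :
    1 < V θ ∧ V (q : K) * V θ ^ e = 1 ∧ V ((M : K) * aeval θ D.g) = 1 ∧
      V (((M : K) * aeval θ D.g + c) ^ p - ((M : K) * aeval θ D.g) ^ p) < 1 := by
  obtain ⟨z, hz⟩ : ∃ z : K, z = (M : K) * aeval θ D.g := ⟨_, rfl⟩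
  rw [← hz]
  have hp0 : p ≠ 0 := D.hp.ne_zero
  have heq : (z + c) ^ p = (M : K) ^ p * (aeval θ D.g ^ p + aeval θ D.r) := by
    have := hθ
    unfold HP at this
    simp only [map_sub, map_pow, map_add, map_mul, eq_intCast,
      map_intCast] at this
    rw [hz]
    exact sub_eq_zero.mp this
  have heq2 : (z + c) ^ p - z ^ p = (M : K) ^ p * aeval θ D.r := by
    rw [heq, hz]; ring
  have hMp : V (M : K) < 1 := by rw [hM]; exact hq
  have h1 : 1 < V θ := by
    by_contra hh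
    rw [not_lt] at hh
    have hg1 := v_aeval_le_one V hV D.g θ hh
    have hr1 := v_aeval_le_one V hV D.r θ hh
    have hz1 : V z < 1 := by
      rw [hz, map_mul]
      exact mul_lt_one_of_lt_of_le hMp hg1
    have h2 : V (z + c) = 1 := by
      rw [Valuation.map_add_eq_of_lt_right, hc]
      rw [hc]; exact hz1
    have h3 : V ((z + c) ^ p) < 1 := by
      rw [heq, map_mul, map_pow]
      refine mul_lt_one_of_lt_of_le (pow_lt_one₀ zero_le hMp hp0) ?_
      refine (V.map_add _ _).trans (max_le ?_ hr1)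
      rw [map_pow]; exact pow_le_one' hg1 _
    rw [map_pow, h2, one_pow] at h3
    exact lt_irrefl _ h3
  have hg : V (aeval θ D.g) = V θ ^ e := by
    rw [v_aeval_monic V hV D.g D.hg θ h1, D.hgn]
  have hVz : V z = V (q : K) * V θ ^ e := by rw [hz, map_mul, hM, hg]
  have hVθ0 : 0 < V θ := lt_of_le_of_lt zero_le h1
  have hep : 1 ≤ (p - 1) * e := Nat.mul_pos (by have := D.hp2; omega) (by have := D.he; omega)
  have hr : V (aeval θ D.r) < V θ ^ ((p - 1) * e) := by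
    obtain ⟨N, hN⟩ : ∃ N, (p - 1) * e = N + 1 := ⟨(p - 1) * e - 1, by omega⟩
    have := v_aeval_le V hV D.r θ N (by rw [← hN]; exact D.hr) h1.le
    rw [hN]
    exact this.trans_lt (pow_lt_pow_right₀ h1 (Nat.lt_succ_self _))
  have hlt : V ((z + c) ^ p - z ^ p) < V (q : K) * V z ^ (p - 1) := by
    rw [heq2, map_mul, map_pow, hM]
    have e1 : V (q : K) * V z ^ (p - 1) = V (q : K) ^ p * V θ ^ ((p - 1) * e) := by
      rw [hVz, mul_pow, ← pow_mul, mul_comm e (p - 1), ← mul_assoc, ← pow_succ',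
        Nat.sub_add_cancel (by omega)]
    rw [e1]
    exact mul_lt_mul_of_pos_left hr (pow_pos (zero_lt_iff.mpr hq0) _)
  have hz1 : V z = 1 := by
    rcases lt_trichotomy (V z) 1 with h | h | h
    · exfalso
      have h2 : V (z + c) = 1 := by
        rw [Valuation.map_add_eq_of_lt_right, hc]
        rw [hc]; exact h
      have h3 : V ((z + c) ^ p - z ^ p) = 1 := by
        have h4 : V (z ^ p) < V ((z + c) ^ p) := by
          rw [map_pow, map_pow, h2, one_pow]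
          exact pow_lt_one₀ zero_le h hp0
        rw [Valuation.map_sub_eq_of_lt_left V h4, map_pow, h2, one_pow]
      rw [h3] at hlt
      have h5 : V (q : K) * V z ^ (p - 1) ≤ 1 := mul_le_one' hq.le (pow_le_one' h.le _)
      exact absurd (hlt.trans_le h5) (lt_irrefl _)
    · exact h
    · exfalso
      rw [v_big V p (by omega) z c h hc hpv] at hlt
      have h5 : V (q : K) * V z ^ (p - 1) ≤ V z ^ (p - 1) := by
        calc V (q : K) * V z ^ (p - 1) ≤ 1 * V z ^ (p - 1) := mul_le_mul_left hq.le _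
          _ = _ := one_mul _
      exact absurd (hlt.trans_le h5) (lt_irrefl _)
  refine ⟨h1, by rw [← hVz, hz1], hz1, ?_⟩
  rw [hz1, one_pow, mul_one] at hlt
  exact hlt.trans hq

end val

open WithZero IsDedekindDomain in
/-- a prime above `q`, with the conclusions of `core` -/
theorem place {p e k : ℕ} (D : DatP p e k) (c M : ℤ) (q : ℕ) (K : Type) [Field K] [NumberField K]
    (θ : K) (hq : q.Prime) (hcM : IsCoprime c M) (hqM : (q : ℤ) ∣ M) (hqM2 : ¬ (q : ℤ) ^ 2 ∣ M)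
    (hqp : q ≠ p) (hθ : aeval θ (HP p D.g D.r c M) = 0) (v : HeightOneSpectrum (𝓞 K))
    (hqv : ((q : ℤ) : 𝓞 K) ∈ v.asIdeal) :
    ((q : ℤ) : 𝓞 K) ∈ v.asIdeal ^ e ∧ v.valuation K ((M : K) * aeval θ D.g) = 1 ∧
      v.valuation K (c : K) = 1 ∧
      v.valuation K (((M : K) * aeval θ D.g + c) ^ p - ((M : K) * aeval θ D.g) ^ p) < 1 := by
  have hqpr : Prime (q : ℤ) := Nat.prime_iff_prime_int.mp hq
  have hVi : ∀ n : ℤ, v.valuation K (n : K) = v.intValuation ((n : ℤ) : 𝓞 K) := by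
    intro n
    rw [← v.valuation_of_algebraMap (K := K)]
    simp
  have hV : ∀ n : ℤ, v.valuation K (n : K) ≤ 1 := by
    intro n; rw [hVi]; exact v.intValuation_le_one _
  have hint' : ∀ z : ℤ, (z : 𝓞 K) ∈ v.asIdeal → (q : ℤ) ∣ z := by
    intro z hz
    by_contra hh
    obtain ⟨a, b, hab⟩ := (Irreducible.coprime_iff_not_dvd hqpr.irreducible).mpr hh
    apply v.isPrime.ne_top
    rw [Ideal.eq_top_iff_one]
    have : (1 : 𝓞 K) = (a : 𝓞 K) * ((q : ℤ) : 𝓞 K) + (b : 𝓞 K) * (z : 𝓞 K) := by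
      exact_mod_cast hab.symm
    rw [this]
    exact Ideal.add_mem _ (Ideal.mul_mem_left _ _ hqv) (Ideal.mul_mem_left _ _ hz)
  have hone : ∀ z : ℤ, ¬ (q : ℤ) ∣ z → v.valuation K (z : K) = 1 := by
    intro z hz
    refine le_antisymm (hV z) (not_lt.mp fun h => hz (hint' z ?_))
    rw [hVi, v.intValuation_lt_one_iff_mem] at h
    exact h
  obtain ⟨m, hm⟩ := hqM
  have hqm : ¬ (q : ℤ) ∣ m := fun h => hqM2 (by rw [hm, pow_two]; exact mul_dvd_mul_left _ h)
  have hqc : ¬ (q : ℤ) ∣ c := fun h =>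
    hqpr.not_isUnit (hcM.isUnit_of_dvd' h ⟨m, hm⟩)
  have hqpp : ¬ (q : ℤ) ∣ (p : ℤ) := fun h => hqp
    ((Nat.prime_dvd_prime_iff_eq hq D.hp).mp (Int.natCast_dvd_natCast.mp h))
  have hVq : v.valuation K ((q : ℤ) : K) < 1 := by
    rw [hVi, v.intValuation_lt_one_iff_mem]; exact hqv
  have hVq' : v.valuation K (q : K) < 1 := by simpa using hVq
  have hq0 : v.valuation K (q : K) ≠ 0 :=
    (Valuation.ne_zero_iff _).mpr (by exact_mod_cast hq.ne_zero)
  have hVM : v.valuation K (M : K) = v.valuation K (q : K) := by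
    rw [hm, Int.cast_mul, map_mul, hone m hqm, mul_one]; simp
  have hVp : v.valuation K (p : K) = 1 := by simpa using hone p hqpp
  obtain ⟨h1, h2, h3, h4⟩ := core (v.valuation K) D c M q θ hV hVq' hq0 (hone c hqc) hVp hVM hθ
  refine ⟨?_, h3, hone c hqc, h4⟩
  rw [← v.intValuation_le_pow_iff_mem, ← hVi]
  have hθ0 : v.valuation K θ ≠ 0 := (lt_of_le_of_lt zero_le h1).ne'
  obtain ⟨n, hn⟩ : ∃ n : ℤ, v.valuation K θ = exp n := ⟨_, (exp_log hθ0).symm⟩
  have hn1 : 1 ≤ n := by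
    rw [hn, ← exp_zero, exp_lt_exp] at h1
    omega
  have h5 : v.valuation K ((q : ℤ) : K) = exp (-((e : ℤ) * n)) := by
    have h6 : v.valuation K (q : K) * exp ((e : ℤ) * n) = 1 := by
      rw [← h2, hn, ← exp_nsmul]; simp
    rw [Int.cast_natCast, exp_neg]
    exact eq_inv_of_mul_eq_one_left h6
  rw [h5, exp_le_exp]
  have : (e : ℤ) * 1 ≤ e * n := mul_le_mul_of_nonneg_left hn1 (by positivity)
  omega

end Pool.Agent.J4H57.TP
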