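import Pool.Agent.J4H57.TP.Core

/-!
Project TP of helper20 (MP_176ace_nt): (DSC).
-/

set_option autoImplicit false

namespace Pool.Agent.J4H57.TP

open Polynomial NumberField Pool.Agent.J4H20.TP IsDedekindDomain

/-- a prime above `q` -/
theorem exists_place (q : ℕ) (K : Type) [Field K] [NumberField K] (hq : q.Prime) :
    ∃ v : HeightOneSpectrum (𝓞 K), ((q : ℤ) : 𝓞 K) ∈ v.asIdeal := by
  have hqp : Prime (q : ℤ) := Nat.prime_iff_prime_int.mp hq
  have hqnu : ¬ IsUnit ((q : ℤ) : 𝓞 K) := by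
    intro h
    have h2 : IsUnit (Algebra.norm ℤ ((q : ℤ) : 𝓞 K)) := h.map _
    have h3 : Algebra.norm ℤ ((q : ℤ) : 𝓞 K) = (q : ℤ) ^ Module.finrank ℤ (𝓞 K) := by
      have := Algebra.norm_algebraMap (S := 𝓞 K) (q : ℤ)
      simpa using this
    rw [h3] at h2
    have h4 : Module.finrank ℤ (𝓞 K) ≠ 0 := by
      rw [RingOfIntegers.rank]
      exact Module.finrank_pos.ne'
    exact hqp.not_isUnit ((isUnit_pow_iff h4).mp h2)
  obtain ⟨P, hPmax, hqP⟩ := exists_max_ideal_of_mem_nonunits hqnu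
  refine ⟨⟨P, hPmax.isPrime, ?_⟩, hqP⟩
  rintro rfl
  have h0 : ((q : ℤ) : 𝓞 K) = 0 := hqP
  have : (q : ℤ) = 0 := by exact_mod_cast h0
  exact hqp.ne_zero this

theorem t_DSC : S_DSC := by
  intro p e k D c M q K _ _ θ hq hcM hqM hqM2 hqp' hθ
  have hqp : Prime (q : ℤ) := Nat.prime_iff_prime_int.mp hq
  obtain ⟨v, hqP⟩ := exists_place q K hq
  obtain ⟨h1, -, -, -⟩ := place D c M q K θ hq hcM hqM hqM2 hqp' hθ v hqP
  have hq2 : ((q : ℤ) : 𝓞 K) ∈ v.asIdeal ^ 2 := Ideal.pow_le_pow_right D.he h1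
  have hint' : ∀ z : ℤ, (z : 𝓞 K) ∈ v.asIdeal → (q : ℤ) ∣ z := by
    intro z hz
    by_contra hh
    obtain ⟨a, b, hab⟩ := (Irreducible.coprime_iff_not_dvd hqp.irreducible).mpr hh
    apply v.isPrime.ne_top
    rw [Ideal.eq_top_iff_one]
    have : (1 : 𝓞 K) = (a : 𝓞 K) * ((q : ℤ) : 𝓞 K) + (b : 𝓞 K) * (z : 𝓞 K) := by
      exact_mod_cast hab.symm
    rw [this]
    exact Ideal.add_mem _ (Ideal.mul_mem_left _ _ hqP) (Ideal.mul_mem_left _ _ hz)
  have hPmax : v.asIdeal.IsMaximal := v.isMaximal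
  have hmax : (Ideal.span {(q : ℤ)}).IsMaximal :=
    PrincipalIdealRing.isMaximal_of_irreducible hqp.irreducible
  have hPd : v.asIdeal ^ (2 - 1) ∣ differentIdeal ℤ (𝓞 K) := by
    refine pow_sub_one_dvd_differentIdeal ℤ (p := Ideal.span {(q : ℤ)}) v.asIdeal 2 ?_ ?_
    · rw [Ne, Ideal.span_singleton_eq_bot]
      exact hqp.ne_zero
    · rw [Ideal.map_span, Set.image_singleton, Ideal.dvd_span_singleton]
      simpa using hq2
  rw [show 2 - 1 = 1 by norm_num, pow_one] at hPd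
  have h5 : Ideal.absNorm v.asIdeal ∣ (discr K).natAbs := by
    rw [← absNorm_differentIdeal K (𝓞 K)]
    exact map_dvd _ hPd
  have h6 : (q : ℤ) ∣ (Ideal.absNorm v.asIdeal : ℤ) :=
    hint' _ (by exact_mod_cast Ideal.absNorm_mem v.asIdeal)
  have h7 : (Ideal.absNorm v.asIdeal : ℤ) ∣ discr K := Int.natCast_dvd.mpr h5
  exact h6.trans h7

end Pool.Agent.J4H57.TP
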